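import Pool.Agent.Rob.ExpT
import Pool.Agent.Rob.Jac

set_option autoImplicit false

open MeasureTheory Metric Set Filter Topology

namespace Pool.Agent.RobT

open Pool.Agent.Rob

variable {d k : ℕ}

/-- squared distance from the axis of the tube -/
noncomputable def q (e : Fin k → E d) (c x : E d) : ℝ := ∑ i, (inner ℝ (e i) (x - c)) ^ 2

/-- the projection of `x - c` -/
noncomputable def pv (e : Fin k → E d) (c x : E d) : E d := ∑ i, (inner ℝ (e i) (x - c)) • e i

/-- regularised distance from the axis -/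
noncomputable def sd (e : Fin k → E d) (c : E d) (ε : ℝ) (x : E d) : ℝ :=
  Real.sqrt (q e c x + ε ^ 2)

theorem q_nonneg (e : Fin k → E d) (c x : E d) : 0 ≤ q e c x :=
  Finset.sum_nonneg fun _ _ => sq_nonneg _

theorem sd_pos (e : Fin k → E d) (c : E d) {ε : ℝ} (hε : 0 < ε) (x : E d) : 0 < sd e c ε x :=
  Real.sqrt_pos.mpr (add_pos_of_nonneg_of_pos (q_nonneg e c x) (by positivity))

theorem sd_sq (e : Fin k → E d) (c : E d) (ε : ℝ) (x : E d) :
    sd e c ε x ^ 2 = q e c x + ε ^ 2 :=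
  Real.sq_sqrt (add_nonneg (q_nonneg e c x) (sq_nonneg _))

theorem inner_pv {e : Fin k → E d} (c x v : E d) :
    inner ℝ (pv e c x) v = ∑ i, inner ℝ (e i) (x - c) * inner ℝ (e i) v := by
  unfold pv
  rw [sum_inner]
  exact Finset.sum_congr rfl fun i _ => by rw [real_inner_smul_left]

theorem norm_pv {e : Fin k → E d} (he : Orthonormal ℝ e) (c x : E d) :
    ‖pv e c x‖ ^ 2 = q e c x := by
  rw [← real_inner_self_eq_norm_sq, inner_pv]
  unfold q
  refine Finset.sum_congr rfl fun i _ => ?_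
  have : inner ℝ (e i) (pv e c x) = inner ℝ (e i) (x - c) := by
    unfold pv
    exact he.inner_right_fintype _ i
  rw [this, sq]

theorem hasF_inner (v c x : E d) :
    HasFDerivAt (fun y => inner ℝ v (y - c)) (innerSL ℝ v) x := by
  have h1 : HasFDerivAt (fun y : E d => y - c) (ContinuousLinearMap.id ℝ (E d)) x :=
    (hasFDerivAt_id x).sub_const c
  have h2 := ((innerSL ℝ v).hasFDerivAt (x := x - c)).comp x h1
  have h3 : (innerSL ℝ v).comp (ContinuousLinearMap.id ℝ (E d)) = innerSL ℝ v :=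
    ContinuousLinearMap.comp_id _
  rw [h3] at h2
  exact h2

theorem hasF_q (e : Fin k → E d) (c x : E d) :
    HasFDerivAt (q e c) ((2 : ℝ) • innerSL ℝ (pv e c x)) x := by
  have h1 : ∀ i ∈ (Finset.univ : Finset (Fin k)), HasFDerivAt (fun y => (inner ℝ (e i) (y - c)) ^ 2)
      ((2 * inner ℝ (e i) (x - c)) • innerSL ℝ (e i)) x := by
    intro i _
    have := (hasF_inner (e i) c x).pow 2
    simpa using this
  have h2 := HasFDerivAt.fun_sum h1
  have h3 : ∑ i, (2 * inner ℝ (e i) (x - c)) • innerSL ℝ (e i) =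
      (2 : ℝ) • innerSL ℝ (pv e c x) := by
    ext v
    simp only [ContinuousLinearMap.sum_apply, ContinuousLinearMap.smul_apply, innerSL_apply_apply,
      smul_eq_mul, inner_pv, Finset.mul_sum]
    exact Finset.sum_congr rfl fun i _ => by ring
  rw [h3] at h2
  exact h2

theorem hasF_sd (e : Fin k → E d) (c : E d) {ε : ℝ} (hε : 0 < ε) (x : E d) :
    HasFDerivAt (sd e c ε) ((sd e c ε x)⁻¹ • innerSL ℝ (pv e c x)) x := by
  have h1 : HasFDerivAt (fun y => q e c y + ε ^ 2) ((2 : ℝ) • innerSL ℝ (pv e c x)) x :=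
    (hasF_q e c x).add_const _
  have h0 : q e c x + ε ^ 2 ≠ 0 :=
    (add_pos_of_nonneg_of_pos (q_nonneg e c x) (by positivity)).ne'
  have h2 := h1.sqrt h0
  have h3 : (1 / (2 * Real.sqrt (q e c x + ε ^ 2))) • (2 : ℝ) • innerSL ℝ (pv e c x) =
      (sd e c ε x)⁻¹ • innerSL ℝ (pv e c x) := by
    rw [smul_smul]
    congr 1
    unfold sd
    field_simp
  rw [h3] at h2
  exact h2

theorem contDiff_pv (e : Fin k → E d) (c : E d) : ContDiff ℝ 1 (pv e c) := by
  unfold pv
  exact ContDiff.sum fun i _ => ((contDiff_const.inner ℝ (contDiff_id.sub contDiff_const)).smul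
    contDiff_const)

theorem contDiff_q (e : Fin k → E d) (c : E d) : ContDiff ℝ 1 (q e c) := by
  unfold q
  exact ContDiff.sum fun i _ => (contDiff_const.inner ℝ (contDiff_id.sub contDiff_const)).pow 2

theorem contDiff_sd (e : Fin k → E d) (c : E d) {ε : ℝ} (hε : 0 < ε) :
    ContDiff ℝ 1 (sd e c ε) := by
  unfold sd
  exact ((contDiff_q e c).add contDiff_const).sqrt fun x =>
    (add_pos_of_nonneg_of_pos (q_nonneg e c x) (by positivity)).ne'

theorem divg_pv {e : Fin k → E d} (he : Orthonormal ℝ e) (c x : E d) : divg (pv e c) x = k := by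
  have h1 : HasFDerivAt (pv e c) (∑ i, (innerSL ℝ (e i)).smulRight (e i)) x := by
    unfold pv
    exact HasFDerivAt.fun_sum fun i _ => (hasF_inner (e i) c x).smul_const (e i)
  rw [divg, h1.fderiv]
  have h2 : ∀ j : Fin d, ((∑ i, (innerSL ℝ (e i)).smulRight (e i) : E d →L[ℝ] E d)
      (EuclideanSpace.single j 1)) j = ∑ i, (e i j) ^ 2 := by
    intro j
    rw [ContinuousLinearMap.sum_apply]
    rw [WithLp.ofLp_sum, Finset.sum_apply]
    refine Finset.sum_congr rfl fun i _ => ?_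
    simp [ContinuousLinearMap.smulRight_apply, EuclideanSpace.inner_single_right, sq]
  rw [Finset.sum_congr rfl fun j _ => h2 j, Finset.sum_comm]
  have h3 : ∀ i : Fin k, ∑ j, (e i j) ^ 2 = (1 : ℝ) := by
    intro i
    have h4 := EuclideanSpace.norm_sq_eq (e i)
    rw [he.1 i] at h4
    simpa using h4.symm
  rw [Finset.sum_congr rfl fun i _ => h3 i]
  simp

/-- the unit field -/
noncomputable def fX (e : Fin k → E d) (c : E d) (ε : ℝ) (x : E d) : E d :=
  (sd e c ε x)⁻¹ • pv e c x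

theorem contDiff_fX (e : Fin k → E d) (c : E d) {ε : ℝ} (hε : 0 < ε) :
    ContDiff ℝ 1 (fX e c ε) :=
  ((contDiff_sd e c hε).inv fun x => (sd_pos e c hε x).ne').smul (contDiff_pv e c)

theorem norm_fX_sq {e : Fin k → E d} (he : Orthonormal ℝ e) (c : E d) {ε : ℝ} (hε : 0 < ε)
    (x : E d) : ‖fX e c ε x‖ ^ 2 = 1 - ε ^ 2 / (q e c x + ε ^ 2) := by
  unfold fX
  rw [norm_smul, mul_pow, norm_pv he, Real.norm_eq_abs, sq_abs, inv_pow, sd_sq]
  have h0 : q e c x + ε ^ 2 ≠ 0 :=
    (add_pos_of_nonneg_of_pos (q_nonneg e c x) (by positivity)).ne'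
  field_simp
  ring

theorem norm_fX_le {e : Fin k → E d} (he : Orthonormal ℝ e) (c : E d) {ε : ℝ} (hε : 0 < ε)
    (x : E d) : ‖fX e c ε x‖ ≤ 1 := by
  have h1 := norm_fX_sq he c hε x
  have h2 : 0 ≤ ε ^ 2 / (q e c x + ε ^ 2) :=
    div_nonneg (sq_nonneg _) (add_nonneg (q_nonneg e c x) (sq_nonneg _))
  have h3 : ‖fX e c ε x‖ ^ 2 ≤ 1 := by linarith
  exact (sq_le_one_iff₀ (norm_nonneg _)).mp h3

theorem divg_fX {e : Fin k → E d} (he : Orthonormal ℝ e) (c : E d) {ε : ℝ} (hε : 0 < ε)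
    (x : E d) : (k - 1 : ℝ) / sd e c ε x ≤ divg (fX e c ε) x := by
  have hs := sd_pos e c hε x
  have h1 : HasFDerivAt (fun y => (sd e c ε y)⁻¹)
      ((-((sd e c ε x) ^ 2)⁻¹) • ((sd e c ε x)⁻¹ • innerSL ℝ (pv e c x))) x :=
    (hasDerivAt_inv hs.ne').comp_hasFDerivAt x (hasF_sd e c hε x)
  have h2 : divg (fX e c ε) x = (sd e c ε x)⁻¹ * k -
      ((sd e c ε x) ^ 2)⁻¹ * ((sd e c ε x)⁻¹ * q e c x) := by
    unfold fX
    rw [divg_smul h1.differentiableAt ((contDiff_pv e c).differentiable one_ne_zero x),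
      divg_pv he, h1.fderiv]
    have h3 : innerSL ℝ (pv e c x) (pv e c x) = q e c x := by
      rw [innerSL_apply_apply, real_inner_self_eq_norm_sq, norm_pv he]
    simp only [ContinuousLinearMap.smul_apply, h3, smul_eq_mul]
    ring
  have h4 : q e c x ≤ sd e c ε x ^ 2 := by
    rw [sd_sq]
    nlinarith [sq_nonneg ε]
  have h5 : ((sd e c ε x) ^ 2)⁻¹ * ((sd e c ε x)⁻¹ * q e c x) ≤ (sd e c ε x)⁻¹ := by
    have h6 : ((sd e c ε x) ^ 2)⁻¹ * q e c x ≤ 1 := by
      rw [inv_mul_le_iff₀ (by positivity)]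
      linarith
    calc ((sd e c ε x) ^ 2)⁻¹ * ((sd e c ε x)⁻¹ * q e c x) =
        (sd e c ε x)⁻¹ * (((sd e c ε x) ^ 2)⁻¹ * q e c x) := by ring
      _ ≤ (sd e c ε x)⁻¹ * 1 := mul_le_mul_of_nonneg_left h6 (inv_nonneg.mpr hs.le)
      _ = _ := mul_one _
  rw [h2, div_eq_mul_inv]
  nlinarith

/-- the bound with the regularisation -/
theorem tube_core {e : Fin k → E d} (he : Orthonormal ℝ e) (hk : 1 ≤ k) {c : E d}
    {Ω : Set (E d)} (ho : IsOpen Ω) (hb : Bornology.IsBounded Ω) (hne : Ω.Nonempty) {r : ℝ}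
    (hr : 0 < r) (ht : ∀ x ∈ Ω, q e c x ≤ r ^ 2) {a : ℝ} (ha : 0 < a) {ε : ℝ} (hε : 0 < ε)
    (hε1 : ε ≤ 1) :
    robinP (-a) Ω ≤ ((-(a ^ 2 + a * ((k - 1) / Real.sqrt (r ^ 2 + ε ^ 2))) +
      a ^ 2 * (Real.exp (2 * (a * (r + 1))) / volume.real Ω) *
        ∫ x in Ω, ε ^ 2 / (q e c x + ε ^ 2) : ℝ) : EReal) := by
  obtain ⟨u, hu⟩ : ∃ u : E d → ℝ, u = fun x => Real.exp (a * sd e c ε x) := ⟨_, rfl⟩
  have hud : ContDiff ℝ 1 u := by
    rw [hu]
    exact Real.contDiff_exp.comp (contDiff_const.mul (contDiff_sd e c hε))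
  have hup : ∀ x, 0 < u x := fun x => by rw [hu]; exact Real.exp_pos _
  have hu1 : ∀ x, 1 ≤ u x := fun x => by
    rw [hu]
    exact Real.one_le_exp (mul_nonneg ha.le (sd_pos e c hε x).le)
  have hu' : ∀ x, HasFDerivAt u ((a * u x) • innerSL ℝ (fX e c ε x)) x := by
    intro x
    have h1 : HasFDerivAt (fun x => a * sd e c ε x)
        (a • ((sd e c ε x)⁻¹ • innerSL ℝ (pv e c x))) x := (hasF_sd e c hε x).const_mul a
    have h2 := h1.exp
    have h3 : Real.exp (a * sd e c ε x) • a • ((sd e c ε x)⁻¹ • innerSL ℝ (pv e c x)) =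
        (a * u x) • innerSL ℝ (fX e c ε x) := by
      ext v
      rw [hu]
      simp only [ContinuousLinearMap.smul_apply, innerSL_apply_apply, smul_eq_mul, fX,
        real_inner_smul_left]
      ring
    rw [h3] at h2
    rw [hu] at h2 ⊢
    exact h2
  have hcomp : IsCompact (closure Ω) := hb.isCompact_closure
  have hint : ∀ f : E d → ℝ, Continuous f → IntegrableOn f Ω := fun f hf =>
    (hf.continuousOn.integrableOn_compact hcomp).mono_set subset_closure
  have hB : 0 < ∫ x in Ω, u x ^ 2 := by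
    rw [setIntegral_pos_iff_support_of_nonneg_ae (ae_of_all _ fun x => sq_nonneg _)
      (hint _ (hud.continuous.pow 2))]
    have : Function.support (fun x => u x ^ 2) = univ := by
      ext x
      simp [(hup x).ne']
    rw [this, univ_inter]
    exact ho.measure_pos _ hne
  refine (iInf_le _ ⟨u, hud, hB⟩).trans ?_
  have hXc : ContDiff ℝ 1 (fun y => u y ^ 2 • fX e c ε y) :=
    (hud.pow 2).smul (contDiff_fX e c hε)
  have hbd : ((∫ x in Ω, divg (fun y => u y ^ 2 • fX e c ε y) x : ℝ) : EReal) ≤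
      bdry Ω (fun x => u x ^ 2) :=
    le_iSup_of_le ⟨fX e c ε, contDiff_fX e c hε, norm_fX_le he c hε⟩ le_rfl
  refine quot_le_of_bdry ha.le hB hbd ?_
  -- continuity of the integrands
  have hc1 : Continuous (fun x => ‖fderiv ℝ u x‖ ^ 2) :=
    (hud.continuous_fderiv one_ne_zero).norm.pow 2
  have hc2 : Continuous (divg (fun y => u y ^ 2 • fX e c ε y)) := by
    have h1 : Continuous (fun x => fderiv ℝ (fun y => u y ^ 2 • fX e c ε y) x) :=
      hXc.continuous_fderiv one_ne_zero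
    unfold divg
    refine continuous_finsetSum _ fun i _ => ?_
    have h2 : Continuous (fun x => (fderiv ℝ (fun y => u y ^ 2 • fX e c ε y) x)
        (EuclideanSpace.single i (1 : ℝ))) := h1.clm_apply continuous_const
    exact (EuclideanSpace.proj (𝕜 := ℝ) i).continuous.comp h2
  have hq0 : ∀ x, 0 < q e c x + ε ^ 2 := fun x =>
    add_pos_of_nonneg_of_pos (q_nonneg e c x) (by positivity)
  have hc3 : Continuous (fun x => ε ^ 2 / (q e c x + ε ^ 2)) :=
    continuous_const.div ((contDiff_q e c).continuous.add continuous_const) fun x => (hq0 x).ne'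
  have hc4 : Continuous (fun x => u x ^ 2) := hud.continuous.pow 2
  have hkr : (1 : ℝ) ≤ k := by exact_mod_cast hk
  set S := Real.sqrt (r ^ 2 + ε ^ 2) with hS
  have hS0 : 0 < S := Real.sqrt_pos.mpr (by positivity)
  set M := Real.exp (2 * (a * (r + 1))) with hM
  have hM0 : 0 < M := Real.exp_pos _
  set J := ∫ x in Ω, ε ^ 2 / (q e c x + ε ^ 2) with hJ
  set N := ∫ x in Ω, u x ^ 2 with hN
  have hJ0 : 0 ≤ J := integral_nonneg fun x => div_nonneg (sq_nonneg _) (hq0 x).le
  have hV0 : 0 < volume.real Ω :=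
    ENNReal.toReal_pos (ho.measure_pos _ hne).ne' hb.measure_lt_top.ne
  have hVN : volume.real Ω ≤ N := by
    have h1 : ∫ x in Ω, (1 : ℝ) = volume.real Ω := by simp
    rw [← h1, hN]
    refine integral_mono (hint _ continuous_const) (hint _ hc4) fun x => ?_
    exact one_le_pow₀ (hu1 x)
  have hmain : (∫ x in Ω, ‖fderiv ℝ u x‖ ^ 2) -
      a * ∫ x in Ω, divg (fun y => u y ^ 2 • fX e c ε y) x ≤
      -(a ^ 2 + a * ((k - 1) / S)) * N + a ^ 2 * M * J := by
    rw [hN, hJ, ← integral_const_mul, ← integral_const_mul, ← integral_const_mul,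
      ← integral_sub (hint _ hc1) ((hint _ hc2).const_mul _),
      ← integral_add ((hint _ hc4).const_mul _) ((hint _ hc3).const_mul _)]
    refine setIntegral_mono_on ((hint _ hc1).sub ((hint _ hc2).const_mul _))
      (((hint _ hc4).const_mul _).add ((hint _ hc3).const_mul _)) ho.measurableSet fun x hx => ?_
    have hs := sd_pos e c hε x
    have h1 : HasFDerivAt (fun y => u y ^ 2) ((2 * u x) • ((a * u x) • innerSL ℝ (fX e c ε x))) x := by
      have := (hu' x).pow 2
      simpa using this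
    have h2 : divg (fun y => u y ^ 2 • fX e c ε y) x =
        u x ^ 2 * divg (fX e c ε) x + 2 * a * u x ^ 2 * ‖fX e c ε x‖ ^ 2 := by
      rw [divg_smul h1.differentiableAt ((contDiff_fX e c hε).differentiable one_ne_zero x),
        h1.fderiv]
      simp only [ContinuousLinearMap.smul_apply, innerSL_apply_apply, smul_eq_mul,
        real_inner_self_eq_norm_sq]
      ring
    have h3 : ‖fderiv ℝ u x‖ ^ 2 = a ^ 2 * u x ^ 2 * ‖fX e c ε x‖ ^ 2 := by
      rw [(hu' x).fderiv, norm_smul, innerSL_apply_norm, mul_pow, Real.norm_eq_abs, sq_abs]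
      ring
    have h4 := divg_fX he c hε x
    have h5 : sd e c ε x ≤ S := Real.sqrt_le_sqrt (by linarith [ht x hx])
    have h6 : ((k : ℝ) - 1) / S ≤ (k - 1) / sd e c ε x :=
      div_le_div_of_nonneg_left (by linarith) hs h5
    have h7 : u x ^ 2 ≤ M := by
      have h8 : sd e c ε x ≤ r + 1 := by
        refine h5.trans ?_
        rw [hS, Real.sqrt_le_left (by linarith)]
        nlinarith
      have h9 : u x ^ 2 = Real.exp (2 * (a * sd e c ε x)) := by
        rw [hu, ← Real.exp_nat_mul]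
        norm_num
      rw [h9, hM]
      exact Real.exp_le_exp.mpr (by nlinarith)
    have h10 := norm_fX_sq he c hε x
    show ‖fderiv ℝ u x‖ ^ 2 - a * divg (fun y => u y ^ 2 • fX e c ε y) x ≤
      -(a ^ 2 + a * ((k - 1) / S)) * u x ^ 2 + a ^ 2 * M * (ε ^ 2 / (q e c x + ε ^ 2))
    rw [h2, h3, h10]
    set t := ε ^ 2 / (q e c x + ε ^ 2) with ht'
    have ht0 : 0 ≤ t := div_nonneg (sq_nonneg _) (hq0 x).le
    have hU : 0 ≤ u x ^ 2 := sq_nonneg _
    have h11 : a * u x ^ 2 * ((k - 1) / S) ≤ a * u x ^ 2 * divg (fX e c ε) x :=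
      mul_le_mul_of_nonneg_left (h6.trans h4) (mul_nonneg ha.le hU)
    have h12 : a ^ 2 * t * u x ^ 2 ≤ a ^ 2 * t * M :=
      mul_le_mul_of_nonneg_left h7 (by positivity)
    nlinarith
  have h20 : a ^ 2 * M * J ≤ a ^ 2 * (M / volume.real Ω) * J * N := by
    have h21 : a ^ 2 * (M / volume.real Ω) * J * N = a ^ 2 * M * J * (N / volume.real Ω) := by
      field_simp
    rw [h21]
    have h22 : 1 ≤ N / volume.real Ω := by rwa [le_div_iff₀ hV0, one_mul]
    exact le_mul_of_one_le_right (by positivity) h22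
  nlinarith [hmain, h20]

/-- the axis is a null set -/
theorem ae_q_pos {e : Fin k → E d} (he : Orthonormal ℝ e) (hk : 1 ≤ k) (c : E d) :
    ∀ᵐ x : E d, 0 < q e c x := by
  set i0 : Fin k := ⟨0, hk⟩ with hi0
  set s : AffineSubspace ℝ (E d) := AffineSubspace.mk' c (LinearMap.ker (innerₛₗ ℝ (e i0))) with hs
  have hne : s ≠ ⊤ := by
    intro h
    have h1 : c + e i0 ∈ s := by rw [h]; exact AffineSubspace.mem_top ℝ _ _
    rw [hs, AffineSubspace.mem_mk'] at h1
    have h2 : inner ℝ (e i0) (e i0) = (0 : ℝ) := by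
      have h3 : (c + e i0) -ᵥ c = e i0 := by rw [vsub_eq_sub, add_sub_cancel_left]
      rw [h3] at h1
      exact h1
    rw [real_inner_self_eq_norm_sq, he.1 i0] at h2
    norm_num at h2
  have h0 : volume (s : Set (E d)) = 0 := Measure.addHaar_affineSubspace volume s hne
  refine measure_mono_null (fun x hx => ?_) h0
  have hx' : ¬ 0 < q e c x := hx
  have h1 : q e c x = 0 := le_antisymm (not_lt.mp hx') (q_nonneg e c x)
  have h2 := (Finset.sum_eq_zero_iff_of_nonneg (fun i _ => sq_nonneg _)).mp h1 i0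
    (Finset.mem_univ _)
  have h3 : inner ℝ (e i0) (x - c) = (0 : ℝ) := by simpa using h2
  show x ∈ s
  rw [hs, AffineSubspace.mem_mk', vsub_eq_sub]
  exact h3

/-- **Tube domains.** -/
theorem tube_le {e : Fin k → E d} (he : Orthonormal ℝ e) (hk : 1 ≤ k) {c : E d}
    {Ω : Set (E d)} (ho : IsOpen Ω) (hb : Bornology.IsBounded Ω) (hne : Ω.Nonempty) {r : ℝ}
    (hr : 0 < r) (ht : ∀ x ∈ Ω, q e c x ≤ r ^ 2) {a : ℝ} (ha : 0 < a) :
    robinP (-a) Ω ≤ ((-(a ^ 2 + (k - 1) * a / r) : ℝ) : EReal) := by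
  obtain ⟨w, hw⟩ : ∃ w : ℕ → ℝ, w = fun n : ℕ => 1 / ((n : ℝ) + 1) := ⟨_, rfl⟩
  have hw0 : ∀ n, 0 < w n := fun n => by rw [hw]; positivity
  have hw1 : ∀ n, w n ≤ 1 := fun n => by
    rw [hw]
    exact (div_le_one (by positivity)).mpr (by linarith [Nat.cast_nonneg (α := ℝ) n])
  have hwt : Tendsto w atTop (𝓝 0) := by
    rw [hw]
    exact tendsto_one_div_add_atTop_nhds_zero_nat
  have hwt2 : Tendsto (fun n => w n ^ 2) atTop (𝓝 0) := by
    simpa using hwt.pow 2
  have hfin : volume Ω < ⊤ := hb.measure_lt_top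
  have hJ : Tendsto (fun n => ∫ x in Ω, w n ^ 2 / (q e c x + w n ^ 2)) atTop (𝓝 0) := by
    have h1 : Tendsto (fun n => ∫ x in Ω, w n ^ 2 / (q e c x + w n ^ 2)) atTop
        (𝓝 (∫ x in Ω, (0 : ℝ))) := by
      refine tendsto_integral_of_dominated_convergence (fun _ => (1 : ℝ)) (fun n => ?_) ?_
        (fun n => ae_of_all _ fun x => ?_) ?_
      · exact ((continuous_const.div ((contDiff_q e c).continuous.add continuous_const) fun x =>
          (add_pos_of_nonneg_of_pos (q_nonneg e c x) (pow_pos (hw0 n) 2)).ne').measurable).aestronglyMeasurable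
      · exact integrableOn_const hfin.ne
      · have h0 : 0 < q e c x + w n ^ 2 :=
          add_pos_of_nonneg_of_pos (q_nonneg e c x) (pow_pos (hw0 n) 2)
        rw [Real.norm_of_nonneg (div_nonneg (sq_nonneg _) h0.le), div_le_one h0]
        linarith [q_nonneg e c x]
      · refine ae_restrict_of_ae ?_
        filter_upwards [ae_q_pos he hk c] with x hx
        have h2 : Tendsto (fun n => q e c x + w n ^ 2) atTop (𝓝 (q e c x + 0)) :=
          tendsto_const_nhds.add hwt2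
        have h3 : Tendsto (fun n => w n ^ 2 / (q e c x + w n ^ 2)) atTop
            (𝓝 (0 / (q e c x + 0))) := hwt2.div h2 (by simpa using hx.ne')
        rw [zero_div] at h3
        exact h3
    simpa using h1
  have hS : Tendsto (fun n => Real.sqrt (r ^ 2 + w n ^ 2)) atTop (𝓝 r) := by
    have h1 : Tendsto (fun n => r ^ 2 + w n ^ 2) atTop (𝓝 (r ^ 2 + 0)) :=
      tendsto_const_nhds.add hwt2
    have h2 := (Real.continuous_sqrt.tendsto (r ^ 2 + 0)).comp h1
    rw [add_zero, Real.sqrt_sq hr.le] at h2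
    exact h2
  have hC : Tendsto (fun n => -(a ^ 2 + a * ((k - 1) / Real.sqrt (r ^ 2 + w n ^ 2))) +
      a ^ 2 * (Real.exp (2 * (a * (r + 1))) / volume.real Ω) *
        ∫ x in Ω, w n ^ 2 / (q e c x + w n ^ 2)) atTop (𝓝 (-(a ^ 2 + (k - 1) * a / r))) := by
    have h1 : Tendsto (fun n => ((k : ℝ) - 1) / Real.sqrt (r ^ 2 + w n ^ 2)) atTop
        (𝓝 ((k - 1) / r)) := tendsto_const_nhds.div hS hr.ne'
    have h2 := ((tendsto_const_nhds (x := a ^ 2)).add (h1.const_mul a)).neg.add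
      (hJ.const_mul (a ^ 2 * (Real.exp (2 * (a * (r + 1))) / volume.real Ω)))
    have h3 : -(a ^ 2 + a * (((k : ℝ) - 1) / r)) +
        a ^ 2 * (Real.exp (2 * (a * (r + 1))) / volume.real Ω) * 0 =
        -(a ^ 2 + (k - 1) * a / r) := by ring
    rw [h3] at h2
    exact h2
  refine ge_of_tendsto ((continuous_coe_real_ereal.tendsto _).comp hC) (Eventually.of_forall ?_)
  intro n
  exact tube_core he hk ho hb hne hr ht ha (hw0 n) (hw1 n)

/-- the ball beats every domain in a tube of radius at most `(k - 1) R / d` -/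
theorem tube_ball_le {e : Fin k → E d} (he : Orthonormal ℝ e) (hk : 1 ≤ k) {c : E d}
    {Ω : Set (E d)} (ho : IsOpen Ω) (hb : Bornology.IsBounded Ω) (hne : Ω.Nonempty) {r R : ℝ}
    (hr : 0 < r) (hR : 0 < R) (hrR : d * r ≤ (k - 1) * R) (ht : ∀ x ∈ Ω, q e c x ≤ r ^ 2)
    {a : ℝ} (ha : 0 < a) :
    robinP (-a) Ω ≤ ((-(a ^ 2 + d * (a / R)) : ℝ) : EReal) := by
  refine (tube_le he hk ho hb hne hr ht ha).trans ?_
  rw [EReal.coe_le_coe_iff, neg_le_neg_iff]
  have h1 : (d : ℝ) * (a / R) ≤ (k - 1) * a / r := by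
    rw [le_div_iff₀ hr, mul_div_assoc', div_mul_eq_mul_div, div_le_iff₀ hR]
    nlinarith
  linarith

end Pool.Agent.RobT
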